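import Pool.Agent.MP_8a92de_lc.U43.Top

namespace Pool.Agent.Results.MP_8a92de_lc.EqualityReals

open Pool.Agent.MP_8a92de_lc.U43

theorem result (F : Set (ℕ × ℕ → ℕ)) (hF : Clone F) (C : Set (Set (List ℝ)))
    (hC : ∀ L ∈ C, ∀ L' : Set (List ℝ),
      (∃ f, Poly F (fun a => 0 < a) f ∧ ∀ x, x ∈ L' ↔ f x ∈ L) → L' ∈ C)
    (B : Set (List ℝ)) (hB : ∀ L ∈ C, ∃ f, Poly F (fun a => a ≠ 0) f ∧ ∀ x, x ∈ L ↔ f x ∈ B)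
    (L : Set (List ℝ)) (hL : L ∈ C) (hy : ∃ x, x ∈ L) (hn : ∃ x, x ∉ L) :
    ∃ f, Poly F (fun a => a ≠ 0) f ∧ Function.Injective f ∧ (∀ x, x.length < (f x).length) ∧
      ∀ x, x ∈ L ↔ f x ∈ B := by
  obtain ⟨xy, hy⟩ := hy
  obtain ⟨xn, hn⟩ := hn
  obtain ⟨f, hf, hr⟩ := hB _ (hC L hL _ (sredu F hF (kit_all F hF _) L xy xn hy hn))
  exact main_all F hF (kit_all F hF _) L B f hf hr

end Pool.Agent.Results.MP_8a92de_lc.EqualityReals
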