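import Pool.Agent.MP_8a92de_lc.Mg.H86_Mask

namespace Pool.Agent.Results.MP_8a92de_lc.IsoNCmod

open Pool.Agent.MP_8a92de_lc.H92 Pool.Agent.MP_8a92de_lc.H86

theorem result (p : ℕ) (hp : p.Prime) (C : Set (List Bool → Bool))
    (hC : ∀ A B, N793a5b8e.ManyOneReducible A B → B ∈ C → A ∈ C)
    (A B : List Bool → Bool) (hA : A ∈ C) (hB : B ∈ C)
    (hA' : ∀ L ∈ C, ∃ f, IsNCmod p f ∧ ∀ x, L x = A (f x))
    (hB' : ∀ L ∈ C, ∃ f, IsNCmod p f ∧ ∀ x, L x = B (f x)) :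
    ∃ φ : List Bool ≃ List Bool, IsACmod p φ ∧ IsACmod p φ.symm ∧ ∀ x, A x = B (φ x) := by
  have : Fact p.Prime := ⟨hp⟩
  have key : ∀ {A B : List Bool → Bool}, A ∈ C →
      (∀ L ∈ C, ∃ f, IsNCmod p f ∧ ∀ x, L x = B (f x)) → ∀ {a0 a1}, A a0 ≠ A a1 →
      ∃ h, Nice p h ∧ ∀ x, A x = B (h x) := by
    intro A B hA hB a0 a1 h
    obtain ⟨f, h1, h2⟩ := hB (fun w => A (tl (U w)))
      (hC _ _ ⟨_, U_pt.isPolyTime, fun _ => rfl⟩ hA)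
    exact exists_nice h1.lowDeg h2 h
  by_cases h : ∃ a0 a1, A a0 ≠ A a1
  · obtain ⟨a0, a1, h⟩ := h
    obtain ⟨f, -, hf⟩ := hB' A hA
    obtain ⟨g, g1, g2⟩ := key hA hB' h
    obtain ⟨g', g3, g4⟩ := key hB hA' (a0 := f a0) (a1 := f a1) (by rwa [← hf, ← hf])
    exact iso_of_nice g1 g3 g2 g4
  · push Not at h
    obtain ⟨f, -, hf⟩ := hA' B hB
    have hid : IsACmod p fun x => x :=
      isACmod_of Pb.id (fun _ => le_rfl) (ACF.const fun j n => j < n)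
        (ACF.bit (fun _ => GB.id) id)
    exact ⟨Equiv.refl _, hid, hid, fun x => by rw [hf, h x]⟩

end Pool.Agent.Results.MP_8a92de_lc.IsoNCmod
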