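import Pool.Agent.MP_8a92de_lc.Mg.H86U_FlexC

namespace Pool.Agent.Results.MP_8a92de_lc.IsoPolyTame

open Pool.Agent.MP_8a92de_lc.H86

theorem result (C : Set (List Bool → Bool))
    (hC : ∀ A B, N793a5b8e.ManyOneReducible A B → B ∈ C → A ∈ C)
    (A B : List Bool → Bool) (hA : A ∈ C) (hB : B ∈ C)
    (hA' : ∀ L ∈ C, ∃ f, IsTame f ∧ ∀ x, L x = A (f x))
    (hB' : ∀ L ∈ C, ∃ f, IsTame f ∧ ∀ x, L x = B (f x)) :
    ∃ φ : List Bool ≃ List Bool, N68a2faeb.IsPolyTime φ ∧ N68a2faeb.IsPolyTime φ.symm ∧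
      ∀ x, A x = B (φ x) :=
  iso_of_flex C hC A B hA hB (fun L hL => (hA' L hL).imp fun _ h => ⟨h.1.flex, h.2⟩)
    fun L hL => (hB' L hL).imp fun _ h => ⟨h.1.flex, h.2⟩

end Pool.Agent.Results.MP_8a92de_lc.IsoPolyTame
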