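import Pool.Agent.MP_8a92de_lc.H12.Main

namespace Pool.Agent.Results.MP_8a92de_lc.MonotoneCollapse

open Pool.Agent.MP_8a92de_lc.H12

theorem result (C : Set (List Bool → Bool)) (hC : ∀ A B, NPReducible A B → B ∈ C → A ∈ C)
    (hne : ∃ L ∈ C, ∃ x y, L x ≠ L y) (B : List Bool → Bool) (hB : IsUp B)
    (hB' : ∀ L ∈ C, IsUp L → ∃ f, N68a2faeb.IsPolyTime f ∧ IsMonoCirc f ∧ ∀ x, L x = B (f x))
    (L : List Bool → Bool) (hL : L ∈ C) :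
    ∃ f g : List Bool → List Bool, N68a2faeb.IsPolyTime f ∧ N68a2faeb.IsPolyTime g ∧
      (∀ x, g (f x) = x) ∧ (∀ x, x.length < (f x).length) ∧ (∀ x, L x = B (f x)) ∧
      (IsUp L → IsMonoCirc f) :=
  let ⟨f, ⟨h1, h2, g, h3, h4⟩, h5⟩ := collapse C hC hne B hB hB' L hL
  ⟨f, g, h1.isPolyTime, h3.isPolyTime, h4, h2, h5⟩

end Pool.Agent.Results.MP_8a92de_lc.MonotoneCollapse
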